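import Pool.Agent.H581Z.Ex2

/-!
# Axiom A surface diffeomorphisms with a horseshoe: trivial centralizers contain no open dense set

All definitions but `NoCycles2` and `O` are in `Pool/Agent/H581Z/Defs.lean`.

Idea.  Take a diffeomorphism of `𝕋^2` whose nonwandering set is a sink, a source and a horseshoe,
where the sink and the source have non-real eigenvalues and some orbit goes from the source to the
sink.  The existence of such a source, sink and orbit is an open condition.  Along the orbit of a
small wandering ball one inserts, by a `C^1`-small perturbation, a `C^1` action of the affine group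
of the line tangent to the identity at the ends of an interval; the translations give a
diffeomorphism supported in the orbit of the ball which commutes with the perturbed map.
-/

namespace Pool.Agent.Results.MP_fe72db_an.ANoOpenDense

open Pool.Agent.H581Z

/-- No cycles of length at least two: there are no pairwise distinct basic sets
`Λ 0, …, Λ (m-1)`, `m ≥ 2`, `Λ m = Λ 0`, with `W^u(Λ j) ∩ W^s(Λ (j+1)) \ Ω(f) ≠ ∅` for `j < m`. -/
def NoCycles2 (f : Diff1 2) : Prop :=
  ¬ ∃ (m : ℕ) (Λ : ℕ → Set (Tor 2)), 2 ≤ m ∧ Λ m = Λ 0 ∧ Set.InjOn Λ (Set.Iio m) ∧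
    (∀ j ≤ m, IsBasic f (Λ j)) ∧
    ∀ j < m, ((Ws f⁻¹ (Λ j) ∩ Ws f (Λ (j + 1))) \ Omega f).Nonempty

/-- Axiom A diffeomorphisms of `𝕋^2` with no cycles and a nontrivial homoclinic class. -/
def O : Set (Diff1 2) := {f | AxiomA f ∧ NoCycles2 f ∧ HasNontrivHomClass f}

theorem result : ¬ ∃ U ⊆ O, IsOpen U ∧ O ⊆ closure U ∧ ∀ f ∈ U, TrivCent f := by
  obtain ⟨f0, h1, h2, h3, h4⟩ := example2
  refine no_open_dense (f0 := f0) ⟨h1, ?_, h3⟩ h4
  rintro ⟨m, Λ, a1, a2, -, a3, a4⟩
  exact h2 ⟨m, Λ, by omega, a2, a3, a4⟩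

end Pool.Agent.Results.MP_fe72db_an.ANoOpenDense
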